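import Mathlib.GroupTheory.Solvable
import Mathlib.GroupTheory.Schreier
import Mathlib.GroupTheory.FiniteAbelian.Basic
import Mathlib.GroupTheory.Torsion
import Mathlib.Tactic

/-!
# Short elements of infinite order
-/

set_option autoImplicit false

namespace Pool.Agent.TH60.TB

open scoped commutatorElement

variable {Q : Type*} [Group Q]

/-- The torsion elements of the commutator subgroup of a metabelian group. -/
def TorC (h : ∀ x ∈ commutator Q, ∀ y ∈ commutator Q, x * y = y * x) : Subgroup Q where
  carrier := {x | x ∈ commutator Q ∧ IsOfFinOrder x}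
  mul_mem' := by
    rintro a b ⟨ha1, ha2⟩ ⟨hb1, hb2⟩
    exact ⟨Subgroup.mul_mem _ ha1 hb1, Commute.isOfFinOrder_mul (h a ha1 b hb1) ha2 hb2⟩
  one_mem' := ⟨Subgroup.one_mem _, IsOfFinOrder.one⟩
  inv_mem' := by
    rintro a ⟨ha1, ha2⟩
    exact ⟨Subgroup.inv_mem _ ha1, ha2.inv⟩

lemma metab (h : ∀ x ∈ commutator Q, ∀ y ∈ commutator Q, x * y = y * x) (T : Set Q)
    (hfin : T.Finite) (hgen : Subgroup.closure T = ⊤) (h1 : ∀ s ∈ T, IsOfFinOrder s)
    (h2 : ∀ s ∈ T, ∀ s' ∈ T, IsOfFinOrder ⁅s, s'⁆) : Finite Q := by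
  have hFG : Group.FG Q := ⟨⟨hfin.toFinset, by simpa using hgen⟩⟩
  have hN : (TorC h).Normal := by
    constructor
    rintro n ⟨hn1, hn2⟩ g
    exact ⟨(inferInstance : (commutator Q).Normal).conj_mem n hn1 g,
      (MulAut.conj g).toMonoidHom.isOfFinOrder hn2⟩
  -- all elements commute modulo the torsion subgroup
  have hc1 : ∀ s ∈ T, ∀ s' ∈ T, (QuotientGroup.mk s : Q ⧸ TorC h) * QuotientGroup.mk s' =
      QuotientGroup.mk s' * QuotientGroup.mk s := by
    intro s hs s' hs'
    rw [← QuotientGroup.mk_mul, ← QuotientGroup.mk_mul]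
    apply Eq.symm
    rw [QuotientGroup.eq]
    have e : (s' * s)⁻¹ * (s * s') = ⁅s⁻¹, s'⁻¹⁆ := by
      rw [commutatorElement_def]; group
    rw [e]
    refine ⟨Subgroup.commutator_mem_commutator (Subgroup.mem_top _) (Subgroup.mem_top _), ?_⟩
    have e2 : ⁅s⁻¹, s'⁻¹⁆ = (MulAut.conj (s' * s)⁻¹).toMonoidHom ⁅s, s'⁆ := by
      simp only [MulEquiv.toMonoidHom_eq_coe, MonoidHom.coe_coe, MulAut.conj_apply,
        commutatorElement_def]
      group
    rw [e2]
    exact (MulAut.conj (s' * s)⁻¹).toMonoidHom.isOfFinOrder (h2 s hs s' hs')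
  have hc2 : ∀ s ∈ T, ∀ g : Q, (QuotientGroup.mk s : Q ⧸ TorC h) * QuotientGroup.mk g =
      QuotientGroup.mk g * QuotientGroup.mk s := by
    intro s hs g
    have hg : g ∈ Subgroup.closure T := by rw [hgen]; trivial
    have hle : Subgroup.closure T ≤ (Subgroup.centralizer
        {(QuotientGroup.mk s : Q ⧸ TorC h)}).comap (QuotientGroup.mk' _) := by
      rw [Subgroup.closure_le]
      intro s' hs'
      rw [SetLike.mem_coe, Subgroup.mem_comap, Subgroup.mem_centralizer_iff]
      rintro _ rfl
      exact hc1 s hs s' hs'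
    have := hle hg
    rw [Subgroup.mem_comap, Subgroup.mem_centralizer_iff] at this
    exact this _ rfl
  have hc3 : ∀ g' g : Q, (QuotientGroup.mk g' : Q ⧸ TorC h) * QuotientGroup.mk g =
      QuotientGroup.mk g * QuotientGroup.mk g' := by
    intro g' g
    have hg : g' ∈ Subgroup.closure T := by rw [hgen]; trivial
    have hle : Subgroup.closure T ≤ (Subgroup.centralizer
        {(QuotientGroup.mk g : Q ⧸ TorC h)}).comap (QuotientGroup.mk' _) := by
      rw [Subgroup.closure_le]
      intro s' hs'
      rw [SetLike.mem_coe, Subgroup.mem_comap, Subgroup.mem_centralizer_iff]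
      rintro _ rfl
      exact (hc2 s' hs' g).symm
    have := hle hg
    rw [Subgroup.mem_comap, Subgroup.mem_centralizer_iff] at this
    exact (this _ rfl).symm
  have hle : commutator Q ≤ TorC h := by
    rw [commutator_def, Subgroup.commutator_le]
    intro g _ g' _
    have e1 : (QuotientGroup.mk ⁅g, g'⁆ : Q ⧸ TorC h) = 1 := by
      have : (QuotientGroup.mk ⁅g, g'⁆ : Q ⧸ TorC h) =
          ⁅(QuotientGroup.mk g : Q ⧸ TorC h), QuotientGroup.mk g'⁆ :=
        map_commutatorElement (QuotientGroup.mk' (TorC h)) g g'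
      rw [this, commutatorElement_eq_one_iff_mul_comm]
      exact hc3 g g'
    exact (QuotientGroup.eq_one_iff _).1 e1
  -- the abelianization is finite
  have hab : Finite (Abelianization Q) := by
    have hFG' : Group.FG (Abelianization Q) :=
      Group.fg_of_surjective (f := (Abelianization.of : Q →* Abelianization Q))
        (QuotientGroup.mk'_surjective _)
    apply CommGroup.finite_of_fg_isMulTorsion
    intro x
    obtain ⟨g, rfl⟩ := QuotientGroup.mk'_surjective _ x
    have hg : g ∈ Subgroup.closure T := by rw [hgen]; trivial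
    have hle : Subgroup.closure T ≤
        (CommGroup.torsion (Abelianization Q)).comap Abelianization.of := by
      rw [Subgroup.closure_le]
      intro s hs
      exact (Abelianization.of : Q →* Abelianization Q).isOfFinOrder (h1 s hs)
    exact hle hg
  have hfi : (commutator Q).FiniteIndex := by
    have : Finite (Q ⧸ commutator Q) := hab
    exact Subgroup.finiteIndex_of_finite_quotient
  have hfg : Group.FG (commutator Q) := Subgroup.fg_of_index_ne_zero _
  let _ : CommGroup (commutator Q) :=
    { (inferInstance : Group (commutator Q)) with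
      mul_comm := fun a b => Subtype.ext (h a a.2 b b.2) }
  have hct : Finite (commutator Q) := by
    apply CommGroup.finite_of_fg_isMulTorsion
    intro x
    exact Submonoid.isOfFinOrder_coe.1 (hle x.2).2
  have hcard := (commutator Q).card_mul_index
  apply Nat.finite_of_card_ne_zero
  rw [← hcard]
  exact Nat.mul_ne_zero Nat.card_pos.ne' hfi.index_ne_zero

/-- If all elements `s` and `⁅s, s'⁆` of a finite generating set are torsion then the second derived
subgroup has finite index. -/
theorem short {G : Type*} [Group G] (S : Set G) (hfin : S.Finite)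
    (hgen : Subgroup.closure S = ⊤) (h1 : ∀ s ∈ S, IsOfFinOrder s)
    (h2 : ∀ s ∈ S, ∀ s' ∈ S, IsOfFinOrder ⁅s, s'⁆) : (derivedSeries G 2).FiniteIndex := by
  have hn : (derivedSeries G 2).Normal := derivedSeries_normal G 2
  set π := QuotientGroup.mk' (derivedSeries G 2) with hπ
  have hsurj : Function.Surjective π := QuotientGroup.mk'_surjective _
  have hfinQ : Finite (G ⧸ derivedSeries G 2) := by
    refine metab ?_ (π '' S) (hfin.image _) ?_ ?_ ?_
    · intro x hx y hy
      have e1 : commutator (G ⧸ derivedSeries G 2) = (derivedSeries G 1).map π := by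
        rw [← derivedSeries_one, map_derivedSeries_eq hsurj]
      rw [e1] at hx hy
      obtain ⟨x, hx, rfl⟩ := hx
      obtain ⟨y, hy, rfl⟩ := hy
      rw [← commutatorElement_eq_one_iff_mul_comm, ← map_commutatorElement]
      exact (QuotientGroup.eq_one_iff _).2 (Subgroup.commutator_mem_commutator hx hy)
    · rw [← MonoidHom.map_closure, hgen, ← MonoidHom.range_eq_map,
        MonoidHom.range_eq_top.2 hsurj]
    · rintro _ ⟨s, hs, rfl⟩
      exact π.isOfFinOrder (h1 s hs)
    · rintro _ ⟨s, hs, rfl⟩ _ ⟨s', hs', rfl⟩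
      rw [← map_commutatorElement]
      exact π.isOfFinOrder (h2 s hs s' hs')
  exact Subgroup.finiteIndex_of_finite_quotient

end Pool.Agent.TH60.TB
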