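import Pool.Agent.TH60.TB.Tor

/-!
# The two families of examples
-/

set_option autoImplicit false

namespace Pool.Agent.TH60.TB

open RegularWreathProduct
open scoped commutatorElement

section general

variable {G : Type*} [Group G] (a t : G)

/-- The two generators of the subgroup generated by `a` and `t`. -/
def g1 : Subgroup.closure ({a, t} : Set G) := ⟨a, Subgroup.subset_closure (by simp)⟩
/-- The second generator. -/
def g2 : Subgroup.closure ({a, t} : Set G) := ⟨t, Subgroup.subset_closure (by simp)⟩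

lemma gen_top : Subgroup.closure {g1 a t, g2 a t} = ⊤ := by
  have h := Subgroup.closure_closure_coe_preimage (k := ({a, t} : Set G))
  rw [← h]
  congr 1
  ext y
  simp only [Set.mem_insert_iff, Set.mem_singleton_iff, Set.mem_preimage]
  constructor
  · rintro (rfl | rfl)
    · exact Or.inl rfl
    · exact Or.inr rfl
  · rintro (h | h)
    · exact Or.inl (Subtype.ext h)
    · exact Or.inr (Subtype.ext h)

lemma tors_sub (R : ℕ)
    (h : ∀ l : List G, (∀ y ∈ l, y = a ∨ y = a⁻¹ ∨ y = t ∨ y = t⁻¹) → l.length ≤ R →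
      IsOfFinOrder l.prod)
    (l : List (Subgroup.closure ({a, t} : Set G)))
    (hl : ∀ y ∈ l, y = g1 a t ∨ y = (g1 a t)⁻¹ ∨ y = g2 a t ∨ y = (g2 a t)⁻¹)
    (hR : l.length ≤ R) : IsOfFinOrder l.prod := by
  have h1 := h (l.map (Subgroup.subtype _)) (by
    intro y hy
    rw [List.mem_map] at hy
    obtain ⟨w, hw, rfl⟩ := hy
    rcases hl w hw with rfl | rfl | rfl | rfl
    · exact Or.inl rfl
    · exact Or.inr (Or.inl rfl)
    · exact Or.inr (Or.inr (Or.inl rfl))
    · exact Or.inr (Or.inr (Or.inr rfl))) (by simpa using hR)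
  rw [← map_list_prod] at h1
  exact Submonoid.isOfFinOrder_coe.1 h1

end general

/-! ### The infinite dihedral group -/

/-- The two reflections. -/
def xD : ℕ → DihedralGroup 0
  | 0 => DihedralGroup.sr 0
  | _ => DihedralGroup.sr 1

lemma xD_sq (j : ℕ) : xD j ^ 2 = 1 := by
  rw [sq]
  rcases j with _ | j <;> exact DihedralGroup.sr_mul_self _

/-- The parameters of the first family. -/
def pD (R : ℕ) : Par := ⟨R, 2, 2, by norm_num, by norm_num⟩

/-- The rotations. -/
def Rot : Subgroup (DihedralGroup 0) where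
  carrier := {g | ∃ i : ZMod 0, g = DihedralGroup.r i}
  mul_mem' := by
    rintro _ _ ⟨i, rfl⟩ ⟨j, rfl⟩
    exact ⟨i + j, DihedralGroup.r_mul_r i j⟩
  one_mem' := ⟨0, rfl⟩
  inv_mem' := by
    rintro _ ⟨i, rfl⟩
    exact ⟨-i, DihedralGroup.inv_r i⟩

/-- The type of an element of the dihedral group. -/
def par : DihedralGroup 0 → Bool
  | DihedralGroup.r _ => true
  | DihedralGroup.sr _ => false

lemma par_eq (g h : DihedralGroup 0) (e : par g = par h) : g⁻¹ * h ∈ Rot := by
  rcases g with i | i <;> rcases h with j | j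
  · rw [DihedralGroup.inv_r, DihedralGroup.r_mul_r]; exact ⟨_, rfl⟩
  · simp [par] at e
  · simp [par] at e
  · rw [DihedralGroup.inv_sr, DihedralGroup.sr_mul_sr]; exact ⟨_, rfl⟩

lemma baseOf_fin (Q : Type*) [Group Q] [Finite Q] :
    (baseOf (Q := Q) Rot).FiniteIndex := by
  have : Finite ((DihedralGroup 0 ≀ᵣ Q) ⧸ baseOf (Q := Q) Rot) := by
    let φ : ((DihedralGroup 0 ≀ᵣ Q) ⧸ baseOf (Q := Q) Rot) → (Q → Bool) × Q :=
      fun q => (fun z => par (q.out.left z), q.out.right)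
    apply Finite.of_injective φ
    intro q q' h
    rw [← Quotient.out_eq q, ← Quotient.out_eq q']
    have h1 : (fun z => par (q.out.left z)) = fun z => par (q'.out.left z) :=
      congrArg Prod.fst h
    have h2 : q.out.right = q'.out.right := congrArg Prod.snd h
    refine QuotientGroup.eq.2 ⟨?_, ?_⟩
    · rw [mul_right, inv_right, h2, inv_mul_cancel]
    · intro z
      simp only [mul_left, Pi.mul_apply, inv_left, inv_right, inv_inv, Pi.inv_apply]
      exact par_eq _ _ (congrFun h1 _)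
  exact Subgroup.finiteIndex_of_finite_quotient

theorem dihedral_family (R : ℕ) : ∃ (G : Type) (_ : Group G) (a t : G),
    Subgroup.closure {a, t} = ⊤ ∧ Infinite G ∧ derivedSeries G 3 = ⊥ ∧
    (∃ A : Subgroup G, A.FiniteIndex ∧ ∀ g ∈ A, ∀ h ∈ A, g * h = h * g) ∧
    ∀ l : List G, l.length ≤ R → (∀ y ∈ l, y = a ∨ y = a⁻¹ ∨ y = t ∨ y = t⁻¹) →
      IsOfFinOrder l.prod := by
  set p := pD R with hp
  have hx : ∀ j, xD j ^ p.e = 1 := xD_sq
  let W := DihedralGroup 0 ≀ᵣ Multiplicative (ZMod p.k)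
  refine ⟨Subgroup.closure ({p.ga xD, p.gt} : Set W), inferInstance, g1 _ _, g2 _ _,
    gen_top _ _, ?_, ?_, ?_, ?_⟩
  · by_contra hinf
    rw [not_infinite_iff_finite] at hinf
    obtain ⟨b0, hb0, h1, h2⟩ := p.onto xD 0 (by norm_num [hp, pD])
    obtain ⟨b1, hb1, h3, h4⟩ := p.onto xD 1 (by norm_num [hp, pD])
    have h5 : IsOfFinOrder (⟨b0 * b1, Subgroup.mul_mem _ hb0 hb1⟩ :
        Subgroup.closure ({p.ga xD, p.gt} : Set W)) := isOfFinOrder_of_finite _
    rw [isOfFinOrder_iff_pow_eq_one] at h5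
    obtain ⟨n, hn, h6⟩ := h5
    have h7 : (b0 * b1) ^ n = 1 := by
      have := congrArg (Subgroup.subtype _) h6
      simpa using this
    have h8 : ∀ n : ℕ, ((b0 * b1) ^ n).right = 1 ∧
        ((b0 * b1) ^ n).left 1 = (DihedralGroup.r 1 : DihedralGroup 0) ^ n := by
      intro n
      induction n with
      | zero => simp
      | succ n ih =>
        refine ⟨by rw [pow_succ, mul_right, ih.1, mul_right, h1, h3]; simp, ?_⟩
        rw [pow_succ, mul_left, Pi.mul_apply, ih.1, ih.2, inv_one, one_mul, mul_left,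
          Pi.mul_apply, h1, h2, inv_one, one_mul, h4, pow_succ]
        rfl
    have h9 := (h8 n).2
    rw [h7, DihedralGroup.r_one_pow] at h9
    have h10 : (DihedralGroup.r 0 : DihedralGroup 0) = DihedralGroup.r (n : ZMod 0) := h9
    rw [DihedralGroup.r.injEq] at h10
    have h11 : ((n : ℤ) : ℤ) = 0 := by
      have : ((n : ZMod 0) : ZMod 0) = 0 := h10.symm
      exact_mod_cast this
    omega
  · exact derived_sub _ _ (derived_wr 2 1 derived_dih derived_comm)
  · have := baseOf_fin (Multiplicative (ZMod p.k))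
    refine ⟨(baseOf Rot).subgroupOf _, inferInstance, ?_⟩
    rintro ⟨g, hg'⟩ ⟨hg1, hg2⟩ ⟨h, hh'⟩ ⟨hh1, hh2⟩
    apply Subtype.ext
    show g * h = h * g
    simp only [Subgroup.coe_subtype] at hg1 hg2 hh1 hh2
    ext z
    · rw [mul_left, mul_left, Pi.mul_apply, Pi.mul_apply, hg1, hh1, inv_one, one_mul]
      obtain ⟨i, hi⟩ := hg2 z
      obtain ⟨j, hj⟩ := hh2 z
      rw [hi, hj, DihedralGroup.r_mul_r, DihedralGroup.r_mul_r, add_comm]
    · rw [mul_right, mul_right, hg1, hh1]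
  · intro l hR hl
    exact tors_sub _ _ R (fun l hl hR => p.torsion xD hx l hl hR) l hl hR

/-! ### The lamplighter over the infinite dihedral group -/

/-- The lamplighter group over the infinite dihedral group. -/
abbrev LD := Multiplicative (ZMod 2) ≀ᵣ DihedralGroup 0

/-- The generating involutions. -/
def xL : ℕ → LD
  | 0 => ⟨1, DihedralGroup.sr 0⟩
  | 1 => ⟨1, DihedralGroup.sr 1⟩
  | _ => ⟨fun z => if z = 1 then Multiplicative.ofAdd 1 else 1, 1⟩

lemma xL_sq (j : ℕ) : xL j ^ 2 = 1 := by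
  rw [sq]
  rcases j with _ | _ | j
  · ext z
    · simp [xL]
    · exact DihedralGroup.sr_mul_self _
  · ext z
    · simp [xL]
    · exact DihedralGroup.sr_mul_self _
  · ext z
    · simp only [xL, mul_left, Pi.mul_apply, inv_one, one_mul, one_left, Pi.one_apply]
      split_ifs
      · rfl
      · simp
    · simp [xL]

/-- The parameters of the second family. -/
def pL (R : ℕ) : Par := ⟨R, 3, 2, by norm_num, by norm_num⟩

/-- The rotation with index `i`. -/
def rr (i : ℤ) : DihedralGroup 0 := DihedralGroup.r (Int.cast i)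

lemma rr_mul (i j : ℤ) : rr i * rr j = rr (i + j) := by
  unfold rr
  rw [DihedralGroup.r_mul_r, Int.cast_add]

lemma rr_inv (i : ℤ) : (rr i)⁻¹ = rr (-i) := by
  unfold rr
  rw [DihedralGroup.inv_r, Int.cast_neg]

lemma rr_eq_one (i : ℤ) : rr i = 1 ↔ i = 0 := by
  unfold rr
  rw [DihedralGroup.one_def, DihedralGroup.r.injEq]
  have := ZMod.intCast_zmod_eq_zero_iff_dvd i 0
  constructor
  · intro h
    have h2 := (ZMod.intCast_eq_intCast_iff i 0 0).1 (by rw [h]; simp)
    simpa using h2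
  · rintro rfl
    simp

/-- The topmost lit lamp is at `i`. -/
def Top (v : LD) (i : ℤ) : Prop :=
  v.right = 1 ∧ v.left (rr i) ≠ 1 ∧
    ∀ j : ℤ, i < j → v.left (rr j) = 1

lemma r_left (s j : ℤ) : (rr s)⁻¹ * rr j = rr (j - s) := by
  rw [rr_inv, rr_mul]
  congr 1
  ring

lemma Top_step (v : LD) (i s : ℤ) (hs : 0 < s) (h : Top v i) :
    Top ⁅v, (⟨1, rr s⟩ : LD)⁆ (i + s) := by
  obtain ⟨h1, h2, h3⟩ := h
  have key : ∀ j : ℤ, (⁅v, (⟨1, rr s⟩ : LD)⁆ : LD).left
      (rr j) = v.left (rr j) *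
        (v.left (rr (j - s)))⁻¹ := by
    intro j
    rw [commutatorElement_def]
    simp only [mul_left, Pi.mul_apply, inv_left, Pi.one_apply, mul_one, mul_right, inv_right, h1,
      inv_one, one_mul, Pi.inv_apply, r_left]
  refine ⟨?_, ?_, ?_⟩
  · rw [commutatorElement_def, mul_right, mul_right, mul_right, inv_right, inv_right, h1]
    simp
  · rw [key, h3 (i + s) (by omega), one_mul]
    have e1 : i + s - s = i := by ring
    rw [e1]
    exact inv_ne_one.2 h2
  · intro j hj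
    rw [key, h3 j (by omega), h3 (j - s) (by omega)]
    simp

lemma Top_ne (v : LD) (i : ℤ) (h : Top v i) : v ≠ 1 := by
  rintro rfl
  exact h.2.1 rfl

lemma conj_lamp (i : ℤ) (j : ℤ) :
    ((⟨1, rr i⟩ : LD) * xL 2 *
      (⟨1, rr i⟩ : LD)⁻¹).left (rr j) =
      if j = i then Multiplicative.ofAdd 1 else 1 := by
  simp only [mul_left, Pi.mul_apply, inv_left, Pi.one_apply, mul_one, mul_right,
    one_mul, Pi.inv_apply, r_left, xL, inv_one]
  have : (rr (j - i) = 1) ↔ j = i := by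
    rw [rr_eq_one]
    omega
  by_cases h : j = i
  · rw [if_pos (this.2 h), if_pos h]
  · rw [if_neg (fun h' => h (this.1 h')), if_neg h]

lemma conj_lamp_right (i : ℤ) :
    ((⟨1, rr i⟩ : LD) * xL 2 *
      (⟨1, rr i⟩ : LD)⁻¹).right = 1 := by
  simp [xL]

lemma Top_zero (i j : ℤ) (hij : i < j) :
    Top (((⟨1, rr i⟩ : LD) * xL 2 *
      (⟨1, rr i⟩ : LD)⁻¹)⁻¹ *
      ((⟨1, rr j⟩ : LD) * xL 2 *
      (⟨1, rr j⟩ : LD)⁻¹)) j := by
  set u := ((⟨1, rr i⟩ : LD) * xL 2 *
      (⟨1, rr i⟩ : LD)⁻¹) with hu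
  set v := ((⟨1, rr j⟩ : LD) * xL 2 *
      (⟨1, rr j⟩ : LD)⁻¹) with hv
  have hur : u.right = 1 := conj_lamp_right i
  have hvr : v.right = 1 := conj_lamp_right j
  have key : ∀ l : ℤ, (u⁻¹ * v).left (rr l) =
      (if l = i then Multiplicative.ofAdd (1 : ZMod 2) else 1)⁻¹ *
      (if l = j then Multiplicative.ofAdd (1 : ZMod 2) else 1) := by
    intro l
    rw [mul_left, Pi.mul_apply, inv_left, inv_right, hur, inv_one, inv_one, one_mul]
    simp only [one_mul, Pi.inv_apply]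
    rw [hu, hv, conj_lamp, conj_lamp]
  refine ⟨by rw [mul_right, inv_right, hur, hvr]; simp, ?_, ?_⟩
  · rw [key, if_neg (by omega), if_pos rfl, inv_one, one_mul]
    decide
  · intro l hl
    rw [key, if_neg (by omega), if_neg (by omega)]
    simp

lemma tau_pow (s : ℕ) : ((⟨1, DihedralGroup.r 1⟩ : LD)) ^ s = ⟨1, rr (s : ℤ)⟩ := by
  have h : (⟨1, DihedralGroup.r 1⟩ : LD) = inl (DihedralGroup.r 1) := rfl
  have h2 : (⟨1, rr (s : ℤ)⟩ : LD) = inl (rr (s : ℤ)) := rfl
  rw [h, h2, ← map_pow, DihedralGroup.r_one_pow]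
  unfold rr
  rw [Int.cast_natCast]

theorem lamp_family (R : ℕ) : ∃ (G : Type) (_ : Group G) (a t : G),
    Subgroup.closure {a, t} = ⊤ ∧ derivedSeries G 4 = ⊥ ∧
    (¬ ∃ N : Subgroup G, N.FiniteIndex ∧ Group.IsNilpotent N) ∧
    ∀ l : List G, l.length ≤ R → (∀ y ∈ l, y = a ∨ y = a⁻¹ ∨ y = t ∨ y = t⁻¹) →
      IsOfFinOrder l.prod := by
  set p := pL R with hp
  have hx : ∀ j, xL j ^ p.e = 1 := xL_sq
  let W := LD ≀ᵣ Multiplicative (ZMod p.k)
  refine ⟨Subgroup.closure ({p.ga xL, p.gt} : Set W), inferInstance, g1 _ _, g2 _ _,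
    gen_top _ _, ?_, ?_, ?_⟩
  · exact derived_sub _ _ (derived_wr 3 1 (derived_wr 1 2 derived_comm derived_dih) derived_comm)
  · rintro ⟨N, hN, hnil⟩
    obtain ⟨b0, hb0, h1, h2⟩ := p.onto xL 0 (by norm_num [hp, pL])
    obtain ⟨b1, hb1, h3, h4⟩ := p.onto xL 1 (by norm_num [hp, pL])
    obtain ⟨b2, hb2, h5, h6⟩ := p.onto xL 2 (by norm_num [hp, pL])
    let G := Subgroup.closure ({p.ga xL, p.gt} : Set W)
    let K : Subgroup G := ((rightHom : W →* _).comp G.subtype).ker
    let ev : K →* LD :=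
      { toFun := fun g => ((g : G) : W).left 1
        map_one' := rfl
        map_mul' := by
          rintro ⟨⟨g, hg⟩, hg'⟩ ⟨⟨h, hh⟩, hh'⟩
          have h7 : g.right = 1 := hg'
          show (g * h).left 1 = _
          rw [mul_left, Pi.mul_apply, h7, inv_one, one_mul] }
    let B0 : K := ⟨⟨b0, hb0⟩, h1⟩
    let B1 : K := ⟨⟨b1, hb1⟩, h3⟩
    let B2 : K := ⟨⟨b2, hb2⟩, h5⟩
    have e0 : ev B0 = xL 0 := h2
    have e1 : ev B1 = xL 1 := h4
    have e2 : ev B2 = xL 2 := h6
    let σ : K := B0 * B1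
    have eσ : ev σ = ⟨1, DihedralGroup.r 1⟩ := by
      show ev (B0 * B1) = _
      rw [map_mul, e0, e1]
      ext z
      · simp [xL]
      · simp [xL]
    -- pigeonhole
    let c : ℕ → G := fun i => ((σ ^ i * B2 * (σ ^ i)⁻¹ : K) : G)
    obtain ⟨i, j, hij, hc⟩ : ∃ i j : ℕ, i < j ∧ (c i)⁻¹ * c j ∈ N := by
      have hfin : Finite (G ⧸ N) := Subgroup.finite_quotient_of_finiteIndex
      obtain ⟨i, j, hne, he⟩ := Finite.exists_ne_map_eq_of_infinite
        (fun i : ℕ => (QuotientGroup.mk (c i) : G ⧸ N))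
      rcases lt_or_gt_of_ne hne with h | h
      · exact ⟨i, j, h, QuotientGroup.eq.1 he⟩
      · exact ⟨j, i, h, QuotientGroup.eq.1 he.symm⟩
    obtain ⟨s, hs, -, hs'⟩ := Subgroup.exists_pow_mem_of_index_ne_zero hN.index_ne_zero (σ : G)
    have hiter : ∀ m : ℕ, ∃ y : K, (y : G) ∈ N.lowerCentralSeries m ∧ ∃ i : ℤ, Top (ev y) i := by
      intro m
      induction m with
      | zero =>
        refine ⟨(σ ^ i * B2 * (σ ^ i)⁻¹)⁻¹ * (σ ^ j * B2 * (σ ^ j)⁻¹), hc, j, ?_⟩
        rw [map_mul, map_inv, map_mul, map_mul, map_inv, map_mul, map_mul, map_inv, map_pow,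
          map_pow, eσ, tau_pow, tau_pow, e2]
        exact Top_zero i j (by exact_mod_cast hij)
      | succ m ih =>
        obtain ⟨y, hy, i', hi'⟩ := ih
        refine ⟨⁅y, σ ^ s⁆, ?_, i' + s, ?_⟩
        · rw [Subgroup.lowerCentralSeries_succ]
          have : ((⁅y, σ ^ s⁆ : K) : G) = ⁅(y : G), (σ : G) ^ s⁆ := by
            simp [commutatorElement_def]
          rw [this]
          exact Subgroup.commutator_mem_commutator hy hs'
        · rw [map_commutatorElement, map_pow, eσ, tau_pow]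
          exact Top_step _ _ _ (by exact_mod_cast hs) hi'
    obtain ⟨n, hn⟩ := (Subgroup.isNilpotent_iff_lowerCentralSeries _).1 hnil
    obtain ⟨y, hy, i', hi'⟩ := hiter n
    rw [hn, Subgroup.mem_bot] at hy
    have hy' : y = 1 := Subtype.ext hy
    rw [hy', map_one] at hi'
    exact Top_ne _ _ hi' rfl
  · intro l hR hl
    exact tors_sub _ _ R (fun l hl hR => p.torsion xL hx l hl hR) l hl hR

end Pool.Agent.TH60.TB
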