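import Pool.Agent.TH60.TB.Wr

/-!
# Large balls of torsion elements in wreath products with finite cyclic groups
-/

set_option autoImplicit false

namespace Pool.Agent.TH60.TB

open RegularWreathProduct
open scoped commutatorElement

/-- The parameters. -/
structure Par where
  /-- radius -/
  R : ℕ
  /-- number of zones -/
  n : ℕ
  /-- exponent -/
  e : ℕ
  hn : 0 < n
  he : 0 < e

namespace Par

variable (p : Par)

/-- spacing -/
def L : ℕ := p.R.factorial
/-- first position -/
def D : ℕ := 4 * p.R + 1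
/-- length of a zone -/
def B : ℕ := p.D + p.e * p.L + 4 * p.R + 1
/-- order of the cyclic group -/
def k : ℕ := p.n * p.B

lemma B_pos : 0 < p.B := by unfold B; omega
lemma k_pos : 0 < p.k := Nat.mul_pos p.hn p.B_pos
instance : NeZero p.k := ⟨p.k_pos.ne'⟩
lemma L_pos : 0 < p.L := Nat.factorial_pos _

/-- the zone of a point -/
def zone (z : ZMod p.k) : ℕ := z.val / p.B
/-- the position in the zone -/
def res (z : ZMod p.k) : ℕ := z.val % p.B

lemma val_eq (z : ZMod p.k) : z.val = p.B * p.zone z + p.res z := (Nat.div_add_mod _ _).symm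

lemma zone_lt (z : ZMod p.k) : p.zone z < p.n := by
  unfold zone
  rw [Nat.div_lt_iff_lt_mul p.B_pos]
  exact z.val_lt

lemma res_lt (z : ZMod p.k) : p.res z < p.B := Nat.mod_lt _ p.B_pos

lemma shift (z : ZMod p.k) (m : ℤ) (h0 : 0 ≤ (p.res z : ℤ) + m) (h1 : (p.res z : ℤ) + m < p.B) :
    p.zone (z + m) = p.zone z ∧ (p.res (z + m) : ℤ) = p.res z + m := by
  have hz := p.zone_lt z
  have hv : ((z + m).val : ℤ) = z.val + m := by
    have e1 : z + m = (((z.val : ℤ) + m : ℤ) : ZMod p.k) := by
      push_cast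
      rw [ZMod.natCast_zmod_val]
    rw [e1, ZMod.val_intCast]
    apply Int.emod_eq_of_lt
    · rw [p.val_eq z]
      push_cast
      have : (0 : ℤ) ≤ (p.B : ℤ) * p.zone z := by positivity
      linarith
    · rw [p.val_eq z]
      unfold k
      push_cast
      have h2 : (p.B : ℤ) * (p.zone z + 1) ≤ p.B * p.n := by
        apply mul_le_mul_of_nonneg_left _ (by positivity)
        exact_mod_cast hz
      nlinarith
  obtain ⟨w, hw⟩ : ∃ w : ℕ, (w : ℤ) = p.res z + m := ⟨((p.res z : ℤ) + m).toNat, by omega⟩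
  have hv' : (z + m).val = p.B * p.zone z + w := by
    have : ((z + m).val : ℤ) = ((p.B * p.zone z + w : ℕ) : ℤ) := by
      rw [hv, p.val_eq z]
      push_cast
      rw [hw]
      ring
    exact_mod_cast this
  have hwB : w < p.B := by
    have : (w : ℤ) < p.B := by rw [hw]; exact h1
    exact_mod_cast this
  constructor
  · unfold zone
    rw [hv', Nat.mul_add_div p.B_pos, Nat.div_eq_of_lt hwB]
    rfl
  · rw [← hw]
    unfold res
    rw [hv', Nat.mul_add_mod, Nat.mod_eq_of_lt hwB]

/-- the number of hits up to `r` -/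
def cnt (m r : ℕ) : ℕ :=
  ((Finset.range p.e).filter fun l => p.D + l * p.L ≤ r ∧ m ∣ r - (p.D + l * p.L)).card

open Classical in
/-- the support of `a` -/
noncomputable def A (z : ZMod p.k) : ℤ := if ∃ l < p.e, p.res z = p.D + l * p.L then 1 else 0

/-- the primitive -/
def Hm (m : ℕ) (z : ZMod p.k) : ℤ := if p.res z < p.D + p.e * p.L then (p.cnt m (p.res z) : ℤ) else 0

lemma A_ne (z : ZMod p.k) (h : p.A z ≠ 0) : p.D ≤ p.res z ∧ p.res z < p.D + p.e * p.L := by
  unfold A at h
  split_ifs at h with h1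
  · obtain ⟨l, hl, h2⟩ := h1
    have : (l + 1) * p.L ≤ p.e * p.L := Nat.mul_le_mul_right _ hl
    have h3 := p.L_pos
    constructor
    · omega
    · rw [h2]
      nlinarith
  · exact absurd rfl h

lemma Hm_ne (m : ℕ) (z : ZMod p.k) (h : p.Hm m z ≠ 0) :
    p.D ≤ p.res z ∧ p.res z < p.D + p.e * p.L := by
  unfold Hm at h
  split_ifs at h with h1
  · refine ⟨?_, h1⟩
    by_contra h2
    apply h
    unfold cnt
    rw [Finset.filter_false_of_mem]
    · simp
    · rintro l - ⟨h3, -⟩
      omega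
  · exact absurd rfl h

lemma cnt_step (m r : ℕ) (hm : 0 < m) (hmr : m ≤ r) :
    p.cnt m r = p.cnt m (r - m) +
      ((Finset.range p.e).filter fun l => p.D + l * p.L = r).card := by
  unfold cnt
  rw [← Finset.card_union_of_disjoint]
  · congr 1
    ext l
    simp only [Finset.mem_filter, Finset.mem_union, Finset.mem_range]
    constructor
    · rintro ⟨h1, h2, h3⟩
      by_cases h4 : p.D + l * p.L = r
      · exact Or.inr ⟨h1, h4⟩
      · left
        have h5 : m ≤ r - (p.D + l * p.L) := Nat.le_of_dvd (by omega) h3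
        refine ⟨h1, by omega, ?_⟩
        have e1 : r - m - (p.D + l * p.L) = r - (p.D + l * p.L) - m := by omega
        rw [e1]
        exact Nat.dvd_sub h3 (dvd_refl m)
    · rintro (⟨h1, h2, h3⟩ | ⟨h1, h2⟩)
      · refine ⟨h1, by omega, ?_⟩
        have e1 : r - (p.D + l * p.L) = r - m - (p.D + l * p.L) + m := by omega
        rw [e1]
        exact Nat.dvd_add h3 (dvd_refl m)
      · refine ⟨h1, by omega, ?_⟩
        rw [h2]
        simp
  · rw [Finset.disjoint_left]
    intro l h1 h2
    simp only [Finset.mem_filter, Finset.mem_range] at h1 h2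
    omega

lemma card_A (z : ZMod p.k) :
    (((Finset.range p.e).filter fun l => p.D + l * p.L = p.res z).card : ℤ) = p.A z := by
  unfold A
  split_ifs with h
  · obtain ⟨l, hl, h2⟩ := h
    have : ((Finset.range p.e).filter fun l => p.D + l * p.L = p.res z) = {l} := by
      ext l'
      simp only [Finset.mem_filter, Finset.mem_range, Finset.mem_singleton]
      constructor
      · rintro ⟨-, h3⟩
        have : l' * p.L = l * p.L := by omega
        exact Nat.eq_of_mul_eq_mul_right p.L_pos this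
      · rintro rfl
        exact ⟨hl, h2.symm⟩
    rw [this]
    simp
  · rw [Finset.filter_false_of_mem]
    · simp
    · intro l hl h2
      exact h ⟨l, Finset.mem_range.1 hl, h2.symm⟩

lemma cob (m : ℕ) (hm : 0 < m) (hmR : m ≤ p.R) (z : ZMod p.k) :
    (p.e : ℤ) ∣ p.A z - (p.Hm m z - p.Hm m (z - m)) := by
  have hmL : m ∣ p.L := Nat.dvd_factorial hm hmR
  have hmL' : m ≤ p.L := Nat.le_of_dvd p.L_pos hmL
  have hB : p.B = p.D + p.e * p.L + 4 * p.R + 1 := rfl
  have hD : p.D = 4 * p.R + 1 := rfl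
  rcases lt_or_ge (p.res z) m with h | h
  · have h1 : p.A z = 0 := by
      by_contra h2
      have := p.A_ne z h2
      omega
    have h2 : p.Hm m z = 0 := by
      by_contra h2
      have := p.Hm_ne m z h2
      omega
    have h3 : p.Hm m (z - m) = 0 := by
      by_contra h3
      have h4 := p.Hm_ne m _ h3
      have h5 := (p.shift (z - m) m (by positivity) (by omega)).2
      have e1 : z - (m : ZMod p.k) + ((m : ℤ) : ZMod p.k) = z := by push_cast; ring
      rw [e1] at h5
      omega
    rw [h1, h2, h3]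
    simp
  · have h5 := (p.shift z (-(m : ℤ)) (by omega) (by have := p.res_lt z; omega)).2
    have e1 : z + ((-(m : ℤ) : ℤ) : ZMod p.k) = z - m := by push_cast; ring
    rw [e1] at h5
    have h6 : p.res (z - m) = p.res z - m := by omega
    have h7 := p.cnt_step m (p.res z) hm h
    have h8 := p.card_A z
    rcases lt_or_ge (p.res z) (p.D + p.e * p.L) with h9 | h9
    · have e2 : p.Hm m z = p.cnt m (p.res z) := if_pos h9
      have e3 : p.Hm m (z - m) = p.cnt m (p.res z - m) := by
        unfold Hm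
        rw [h6, if_pos (by omega)]
      rw [e2, e3, h7, ← h8]
      push_cast
      have e9 : ∀ a b : ℤ, b - (a + b - a) = 0 := fun a b => by ring
      rw [e9]
      exact dvd_zero _
    · have e2 : p.Hm m z = 0 := if_neg (by omega)
      have e4 : p.A z = 0 := by
        by_contra h2
        have := p.A_ne z h2
        omega
      rw [e2, e4]
      by_cases h10 : p.res z - m < p.D + p.e * p.L
      · have e3 : p.Hm m (z - m) = p.cnt m (p.res z - m) := by
          unfold Hm
          rw [h6, if_pos h10]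
        rw [e3]
        have key : ∀ l < p.e, p.D + l * p.L ≤ p.res z - m := by
          intro l hl
          have : (l + 1) * p.L ≤ p.e * p.L := Nat.mul_le_mul_right _ hl
          have e5 : (l + 1) * p.L = l * p.L + p.L := by ring
          omega
        by_cases hd : m ∣ p.res z - m - p.D
        · have : p.cnt m (p.res z - m) = p.e := by
            unfold cnt
            rw [Finset.filter_true_of_mem]
            · simp
            · intro l hl
              have h11 := key l (Finset.mem_range.1 hl)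
              refine ⟨h11, ?_⟩
              have e6 : p.res z - m - (p.D + l * p.L) = p.res z - m - p.D - l * p.L := by omega
              rw [e6]
              exact Nat.dvd_sub hd (Dvd.dvd.mul_left hmL l)
          rw [this]
          simp
        · have : p.cnt m (p.res z - m) = 0 := by
            unfold cnt
            rw [Finset.filter_false_of_mem]
            · simp
            · rintro l hl ⟨-, h12⟩
              have h11 := key l (Finset.mem_range.1 hl)
              apply hd
              have e6 : p.res z - m - p.D = p.res z - m - (p.D + l * p.L) + l * p.L := by omega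
              rw [e6]
              exact Nat.dvd_add h12 (Dvd.dvd.mul_left hmL l)
          rw [this]
          simp
      · have e3 : p.Hm m (z - m) = 0 := by
          unfold Hm
          rw [h6, if_neg h10]
        rw [e3]
        simp

variable {P : Type*} [Group P] (x : ℕ → P)

/-- The function with exponents `F`. -/
def Phi (F : ZMod p.k → ℤ) (z : Multiplicative (ZMod p.k)) : P :=
  x (p.zone z.toAdd) ^ F z.toAdd

/-- The first generator. -/
noncomputable def ga : P ≀ᵣ Multiplicative (ZMod p.k) := ⟨p.Phi x p.A, 1⟩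

/-- The second generator. -/
def gt : P ≀ᵣ Multiplicative (ZMod p.k) := ⟨1, Multiplicative.ofAdd 1⟩

/-- The inductive property of left components. -/
def Pr (f : Multiplicative (ZMod p.k) → P) : Prop :=
  ∃ F : ZMod p.k → ℤ, f = p.Phi x F ∧
    ∀ m : ℕ, 0 < m → m ≤ p.R → ∃ H : ZMod p.k → ℤ,
      (∀ z, H z ≠ 0 → 2 * p.R < p.res z ∧ p.res z + 2 * p.R < p.B) ∧
      ∀ z, (p.e : ℤ) ∣ F z - (H z - H (z - m))

/-- The inductive property of elements. -/
def Wd (N : ℕ) (g : P ≀ᵣ Multiplicative (ZMod p.k)) : Prop :=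
  ∃ m : ℤ, |m| ≤ N ∧ g.right = Multiplicative.ofAdd (m : ZMod p.k) ∧ p.Pr x g.left

lemma Phi_shift (m : ℤ) (hm : |m| ≤ p.R) (z : Multiplicative (ZMod p.k)) :
    p.Phi x p.A ((Multiplicative.ofAdd (m : ZMod p.k))⁻¹ * z) =
      x (p.zone z.toAdd) ^ p.A (z.toAdd - m) := by
  have hB : p.B = p.D + p.e * p.L + 4 * p.R + 1 := rfl
  have hD : p.D = 4 * p.R + 1 := rfl
  unfold Phi
  have e1 : ((Multiplicative.ofAdd (m : ZMod p.k))⁻¹ * z).toAdd = z.toAdd - m := by
    rw [toAdd_mul, toAdd_inv, toAdd_ofAdd]; ring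
  rw [e1]
  by_cases h : p.A (z.toAdd - m) = 0
  · rw [h]; simp
  · have h1 := p.A_ne _ h
    rw [abs_le] at hm
    have h2 := (p.shift (z.toAdd - m) m (by omega) (by omega)).1
    have e2 : z.toAdd - (m : ZMod p.k) + m = z.toAdd := by ring
    rw [e2] at h2
    rw [h2]

lemma Pr_step (m : ℤ) (hm : |m| ≤ p.R) (s : ℤ) (f f' : Multiplicative (ZMod p.k) → P)
    (hf : p.Pr x f)
    (h : ∀ z, f' z = f z * (x (p.zone z.toAdd) ^ p.A (z.toAdd - m)) ^ s) : p.Pr x f' := by
  have hB : p.B = p.D + p.e * p.L + 4 * p.R + 1 := rfl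
  have hD : p.D = 4 * p.R + 1 := rfl
  obtain ⟨F, hF, hH⟩ := hf
  refine ⟨fun z => F z + p.A (z - m) * s, ?_, ?_⟩
  · funext z
    rw [h z, hF]
    unfold Phi
    rw [zpow_add, zpow_mul]
  · intro m' h0 h1
    obtain ⟨H, h2, h3⟩ := hH m' h0 h1
    refine ⟨fun z => H z + p.Hm m' (z - m) * s, ?_, ?_⟩
    · intro z hz
      by_cases h4 : H z = 0
      · have h5 : p.Hm m' (z - m) ≠ 0 := by
          intro h5
          apply hz
          simp [h4, h5]
        have h6 := p.Hm_ne m' _ h5
        rw [abs_le] at hm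
        have h7 := (p.shift (z - m) m (by omega) (by omega)).2
        have e2 : z - (m : ZMod p.k) + m = z := by ring
        rw [e2] at h7
        omega
      · exact h2 z h4
    · intro z
      have h4 := h3 z
      have h5 := p.cob m' h0 h1 (z - m)
      have e1 : z - (m : ZMod p.k) - (m' : ZMod p.k) = z - m' - m := by ring
      rw [e1] at h5
      have h6 := dvd_add h4 (Dvd.dvd.mul_right h5 s)
      have e9 : F z + p.A (z - m) * s - (H z + p.Hm m' (z - m) * s -
          (H (z - m') + p.Hm m' (z - m' - m) * s)) =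
          F z - (H z - H (z - m')) +
          (p.A (z - m) - (p.Hm m' (z - m) - p.Hm m' (z - m' - m))) * s := by ring
      show (p.e : ℤ) ∣ F z + p.A (z - m) * s - (H z + p.Hm m' (z - m) * s -
          (H (z - m') + p.Hm m' (z - m' - m) * s))
      rw [e9]
      exact h6

lemma Pr_one : p.Pr x 1 :=
  ⟨0, by funext z; simp [Phi], fun m _ _ => ⟨0, fun z h => absurd rfl h, fun z => by simp⟩⟩

lemma Wd_a (N : ℕ) (hN : N ≤ p.R) (g : P ≀ᵣ Multiplicative (ZMod p.k)) (hg : p.Wd x N g) :
    p.Wd x (N + 1) (g * p.ga x) ∧ p.Wd x (N + 1) (g * (p.ga x)⁻¹) := by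
  obtain ⟨m, hm, h1, h2⟩ := hg
  have hm' : |m| ≤ (p.R : ℤ) := hm.trans (by exact_mod_cast hN)
  constructor
  · refine ⟨m, hm.trans (by push_cast; omega), by simp [ga, h1], ?_⟩
    refine p.Pr_step x m hm' 1 g.left _ h2 ?_
    intro z
    rw [mul_left, Pi.mul_apply, h1, zpow_one, ← p.Phi_shift x m hm' z]
    rfl
  · refine ⟨m, hm.trans (by push_cast; omega), by simp [ga, h1], ?_⟩
    refine p.Pr_step x m hm' (-1) g.left _ h2 ?_
    intro z
    rw [mul_left, Pi.mul_apply, h1, zpow_neg, zpow_one, ← p.Phi_shift x m hm' z]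
    simp [ga]

lemma Wd_t (N : ℕ) (g : P ≀ᵣ Multiplicative (ZMod p.k)) (hg : p.Wd x N g) :
    p.Wd x (N + 1) (g * p.gt) ∧ p.Wd x (N + 1) (g * (p.gt)⁻¹) := by
  obtain ⟨m, hm, h1, h2⟩ := hg
  rw [abs_le] at hm
  constructor
  · refine ⟨m + 1, by rw [abs_le]; push_cast; omega, ?_, ?_⟩
    · simp [gt, h1, ofAdd_add]
    · have : (g * p.gt).left = g.left := by
        funext z
        simp [gt]
      rw [this]
      exact h2
  · refine ⟨m - 1, by rw [abs_le]; push_cast; omega, ?_, ?_⟩
    · simp [gt, h1, ofAdd_sub, div_eq_mul_inv]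
    · have : (g * (p.gt)⁻¹).left = g.left := by
        funext z
        simp [gt]
      rw [this]
      exact h2

lemma Wd_prod (l : List (P ≀ᵣ Multiplicative (ZMod p.k)))
    (hl : ∀ y ∈ l, y = p.ga x ∨ y = (p.ga x)⁻¹ ∨ y = p.gt ∨ y = (p.gt)⁻¹)
    (hR : l.length ≤ p.R) : p.Wd x l.length l.prod := by
  induction l using List.reverseRecOn with
  | nil => exact ⟨0, by simp, by simp, p.Pr_one x⟩
  | append_singleton l y ih =>
    have h1 : l.length + 1 ≤ p.R := by simpa using hR
    have h2 := ih (fun y hy => hl y (by simp [hy])) (by omega)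
    have h3 := hl y (by simp)
    rw [List.prod_append, List.prod_singleton, List.length_append, List.length_singleton]
    rcases h3 with rfl | rfl | rfl | rfl
    · exact (p.Wd_a x _ (by omega) _ h2).1
    · exact (p.Wd_a x _ (by omega) _ h2).2
    · exact (p.Wd_t x _ _ h2).1
    · exact (p.Wd_t x _ _ h2).2

lemma zpow_eq_of_dvd (hx : ∀ j, x j ^ p.e = 1) (j : ℕ) (a b : ℤ) (h : (p.e : ℤ) ∣ a - b) :
    x j ^ a = x j ^ b := by
  obtain ⟨c, hc⟩ := h
  have : a = p.e * c + b := by omega
  rw [this, zpow_add, zpow_mul, zpow_natCast, hx, one_zpow, one_mul]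

lemma fin_pos (hx : ∀ j, x j ^ p.e = 1) (g : P ≀ᵣ Multiplicative (ZMod p.k)) (m : ℕ) (h0 : 0 < m)
    (h1 : m ≤ p.R) (h2 : g.right = Multiplicative.ofAdd (m : ZMod p.k)) (h3 : p.Pr x g.left) :
    IsOfFinOrder g := by
  have hB : p.B = p.D + p.e * p.L + 4 * p.R + 1 := rfl
  obtain ⟨F, hF, hH⟩ := h3
  obtain ⟨H, h4, h5⟩ := hH m h0 h1
  set u : P ≀ᵣ Multiplicative (ZMod p.k) := ⟨p.Phi x H, 1⟩ with hu
  have e1 : g = u * inl (Multiplicative.ofAdd (m : ZMod p.k)) * u⁻¹ := by
    ext z
    · simp only [mul_left, Pi.mul_apply, hu, left_inl, inv_left, Pi.inv_apply, mul_right,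
        right_inl, one_mul, inv_one, Pi.one_apply, mul_one]
      rw [hF]
      unfold Phi
      have e2 : ((Multiplicative.ofAdd (m : ZMod p.k))⁻¹ * z).toAdd = z.toAdd - m := by
        rw [toAdd_mul, toAdd_inv, toAdd_ofAdd]; ring
      rw [e2]
      have e3 : x (p.zone (z.toAdd - m)) ^ H (z.toAdd - m) =
          x (p.zone z.toAdd) ^ H (z.toAdd - m) := by
        by_cases h : H (z.toAdd - m) = 0
        · rw [h]; simp
        · have h6 := h4 _ h
          have h7 := (p.shift (z.toAdd - m) m (by positivity) (by omega)).1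
          have e4 : z.toAdd - (m : ZMod p.k) + ((m : ℤ) : ZMod p.k) = z.toAdd := by
            push_cast; ring
          rw [e4] at h7
          rw [h7]
      rw [e3, ← zpow_neg, ← zpow_add]
      apply p.zpow_eq_of_dvd x hx
      have := h5 z.toAdd
      rwa [sub_eq_add_neg (H z.toAdd)] at this
    · simp [hu, h2]
  rw [isOfFinOrder_iff_pow_eq_one]
  refine ⟨p.k, p.k_pos, ?_⟩
  rw [e1, conj_pow, ← map_pow]
  have : (Multiplicative.ofAdd (m : ZMod p.k)) ^ p.k = 1 := by
    rw [← ofAdd_nsmul]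
    simp
  rw [this]
  simp

lemma fin_zero (hx : ∀ j, x j ^ p.e = 1) (g : P ≀ᵣ Multiplicative (ZMod p.k))
    (h2 : g.right = 1) (h3 : p.Pr x g.left) : IsOfFinOrder g := by
  obtain ⟨F, hF, -⟩ := h3
  rw [isOfFinOrder_iff_pow_eq_one]
  refine ⟨p.e, p.he, ?_⟩
  have h : ∀ n : ℕ, (g ^ n).right = 1 ∧ ∀ z, (g ^ n).left z = (g.left z) ^ n := by
    intro n
    induction n with
    | zero => simp
    | succ n ih =>
      refine ⟨by rw [pow_succ, mul_right, ih.1, h2, one_mul], fun z => ?_⟩
      rw [pow_succ, mul_left, Pi.mul_apply, ih.2 z, ih.1, inv_one, one_mul, pow_succ]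
  ext z
  · rw [(h p.e).2 z, hF]
    unfold Phi
    rw [← zpow_natCast, ← zpow_mul, mul_comm, zpow_mul, zpow_natCast, hx]
    simp
  · rw [(h p.e).1]
    rfl

theorem torsion (hx : ∀ j, x j ^ p.e = 1) (l : List (P ≀ᵣ Multiplicative (ZMod p.k)))
    (hl : ∀ y ∈ l, y = p.ga x ∨ y = (p.ga x)⁻¹ ∨ y = p.gt ∨ y = (p.gt)⁻¹)
    (hR : l.length ≤ p.R) : IsOfFinOrder l.prod := by
  obtain ⟨m, hm, h1, h2⟩ := p.Wd_prod x l hl hR
  rcases lt_trichotomy m 0 with h | h | h
  · rw [← isOfFinOrder_inv_iff, List.prod_inv_reverse]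
    have hl' : ∀ y ∈ (l.map fun y => y⁻¹).reverse,
        y = p.ga x ∨ y = (p.ga x)⁻¹ ∨ y = p.gt ∨ y = (p.gt)⁻¹ := by
      intro y hy
      rw [List.mem_reverse, List.mem_map] at hy
      obtain ⟨y', hy', rfl⟩ := hy
      rcases hl y' hy' with rfl | rfl | rfl | rfl <;> simp
    have hR' : ((l.map fun y => y⁻¹).reverse).length ≤ p.R := by simpa using hR
    obtain ⟨m', hm', h1', h2'⟩ := p.Wd_prod x _ hl' hR'
    rw [← List.prod_inv_reverse] at h1' h2' ⊢
    rw [abs_le] at hm
    obtain ⟨w, hw⟩ : ∃ w : ℕ, (w : ℤ) = -m := ⟨(-m).toNat, by omega⟩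
    refine p.fin_pos x hx _ w (by omega) (by omega) ?_ h2'
    rw [inv_right, h1, ← ofAdd_neg]
    congr 1
    have : ((w : ℤ) : ZMod p.k) = ((-m : ℤ) : ZMod p.k) := by rw [hw]
    push_cast at this
    exact this.symm
  · subst h
    exact p.fin_zero x hx _ (by rw [h1]; simp) h2
  · rw [abs_le] at hm
    obtain ⟨w, hw⟩ : ∃ w : ℕ, (w : ℤ) = m := ⟨m.toNat, by omega⟩
    refine p.fin_pos x hx _ w (by omega) (by omega) ?_ h2
    rw [h1]
    congr 1
    rw [← hw]
    push_cast
    rfl

theorem onto (j : ℕ) (hj : j < p.n) :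
    ∃ g ∈ Subgroup.closure {p.ga x, p.gt}, g.right = 1 ∧ g.left 1 = x j := by
  have hB : p.B = p.D + p.e * p.L + 4 * p.R + 1 := rfl
  set w : ℕ := p.B * j + p.D with hw
  have hwk : w < p.k := by
    unfold k
    have : p.B * (j + 1) ≤ p.B * p.n := Nat.mul_le_mul_left _ hj
    have e1 : p.B * (j + 1) = p.B * j + p.B := by ring
    have e2 : p.n * p.B = p.B * p.n := by ring
    omega
  have ha : p.ga x ∈ Subgroup.closure {p.ga x, p.gt} := Subgroup.subset_closure (by simp)
  have ht : (p.gt : P ≀ᵣ Multiplicative (ZMod p.k)) ∈ Subgroup.closure {p.ga x, p.gt} :=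
    Subgroup.subset_closure (by simp)
  have hgt : (p.gt : P ≀ᵣ Multiplicative (ZMod p.k)) = inl (Multiplicative.ofAdd 1) := rfl
  have hpow : (p.gt : P ≀ᵣ Multiplicative (ZMod p.k)) ^ w =
      inl (Multiplicative.ofAdd (w : ZMod p.k)) := by
    rw [hgt, ← map_pow, ← ofAdd_nsmul]
    simp
  refine ⟨(p.gt ^ w)⁻¹ * p.ga x * p.gt ^ w, ?_, ?_, ?_⟩
  · exact Subgroup.mul_mem _ (Subgroup.mul_mem _ (Subgroup.inv_mem _ (Subgroup.pow_mem _ ht _)) ha)
      (Subgroup.pow_mem _ ht _)
  · rw [hpow]
    simp [ga]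
  · rw [hpow]
    have hv : (w : ZMod p.k).val = w := ZMod.val_cast_of_lt hwk
    have hz : p.zone (w : ZMod p.k) = j := by
      unfold zone
      rw [hv, hw, Nat.mul_add_div p.B_pos, Nat.div_eq_of_lt (by omega)]
      rfl
    have hr : p.res (w : ZMod p.k) = p.D := by
      unfold res
      rw [hv, hw, Nat.mul_add_mod, Nat.mod_eq_of_lt (by omega)]
    have hA : p.A (w : ZMod p.k) = 1 := by
      unfold A
      rw [if_pos ⟨0, p.he, by rw [hr]; simp⟩]
    simp only [mul_left, Pi.mul_apply, inv_left, left_inl, Pi.one_apply, inv_right, right_inl,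
      mul_right, inv_inv, mul_one, Pi.inv_apply, inv_one, one_mul, ga]
    unfold Phi
    rw [toAdd_ofAdd, hz, hA, zpow_one]

end Par

end Pool.Agent.TH60.TB
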