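import Mathlib.GroupTheory.RegularWreathProduct
import Mathlib.GroupTheory.Solvable
import Mathlib.GroupTheory.SpecificGroups.Dihedral
import Mathlib.GroupTheory.Nilpotent
import Mathlib.GroupTheory.Index
import Mathlib.Data.ZMod.Basic
import Mathlib.Tactic

/-!
# Wreath products: derived length, and conjugates of the top group
-/

set_option autoImplicit false

namespace Pool.Agent.TH60.TB

open RegularWreathProduct
open scoped commutatorElement

variable {D Q : Type*} [Group D] [Group Q]

/-- The elements of the base group all of whose coordinates lie in `H`. -/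
def baseOf (H : Subgroup D) : Subgroup (D ≀ᵣ Q) where
  carrier := {g | g.right = 1 ∧ ∀ z, g.left z ∈ H}
  mul_mem' := by
    rintro a b ⟨ha1, ha2⟩ ⟨hb1, hb2⟩
    refine ⟨by simp [ha1, hb1], fun z => ?_⟩
    simp only [mul_left, Pi.mul_apply]
    exact H.mul_mem (ha2 _) (hb2 _)
  one_mem' := ⟨rfl, fun z => by simp [H.one_mem]⟩
  inv_mem' := by
    rintro a ⟨ha1, ha2⟩
    refine ⟨by simp [ha1], fun z => ?_⟩
    simp only [inv_left, Pi.inv_apply]
    exact H.inv_mem (ha2 _)

lemma derived_right (b : ℕ) (hQ : derivedSeries Q b = ⊥) :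
    derivedSeries (D ≀ᵣ Q) b ≤ baseOf (derivedSeries D 0) := by
  intro g hg
  refine ⟨?_, fun z => by simp⟩
  have h1 : (rightHom : D ≀ᵣ Q →* Q) g ∈ derivedSeries Q b :=
    map_derivedSeries_le_derivedSeries (f := (rightHom : D ≀ᵣ Q →* Q)) b
      (Subgroup.mem_map_of_mem _ hg)
  rw [hQ, Subgroup.mem_bot] at h1
  exact h1

lemma derived_base (b a : ℕ) (hQ : derivedSeries Q b = ⊥) :
    derivedSeries (D ≀ᵣ Q) (b + a) ≤ baseOf (derivedSeries D a) := by
  induction a with
  | zero => exact derived_right b hQ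
  | succ a ih =>
    rw [← add_assoc, derivedSeries_succ, derivedSeries_succ, Subgroup.commutator_le]
    intro g hg h hh
    obtain ⟨g1, g2⟩ := ih hg
    obtain ⟨h1, h2⟩ := ih hh
    refine ⟨by simp [commutatorElement_def, g1, h1], fun z => ?_⟩
    have : (⁅g, h⁆ : D ≀ᵣ Q).left z = ⁅g.left z, h.left z⁆ := by
      simp [commutatorElement_def, g1, h1]
    rw [this]
    exact Subgroup.commutator_mem_commutator (g2 z) (h2 z)

/-- The derived length of a wreath product is at most the sum of the derived lengths. -/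
lemma derived_wr (a b : ℕ) (hD : derivedSeries D a = ⊥) (hQ : derivedSeries Q b = ⊥) :
    derivedSeries (D ≀ᵣ Q) (b + a) = ⊥ := by
  rw [eq_bot_iff]
  intro g hg
  obtain ⟨h1, h2⟩ := derived_base b a hQ hg
  rw [Subgroup.mem_bot]
  ext z
  · have := h2 z
    rw [hD, Subgroup.mem_bot] at this
    simpa using this
  · simpa using h1

/-- Derived length of subgroups. -/
lemma derived_sub {G : Type*} [Group G] (H : Subgroup G) (n : ℕ) (h : derivedSeries G n = ⊥) :
    derivedSeries H n = ⊥ := by
  rw [eq_bot_iff]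
  intro g hg
  have h1 : H.subtype g ∈ derivedSeries G n :=
    map_derivedSeries_le_derivedSeries (f := H.subtype) n (Subgroup.mem_map_of_mem _ hg)
  rw [h, Subgroup.mem_bot] at h1
  rw [Subgroup.mem_bot]
  exact Subtype.ext h1

lemma derived_comm {G : Type*} [CommGroup G] : derivedSeries G 1 = ⊥ := by
  rw [derivedSeries_succ, derivedSeries_zero, Subgroup.commutator_eq_bot_iff_le_centralizer]
  intro g _ h _
  exact mul_comm _ _

lemma derived_dih : derivedSeries (DihedralGroup 0) 2 = ⊥ := by
  have h1 : ∀ g ∈ derivedSeries (DihedralGroup 0) 1, ∃ i : ZMod 0, g = DihedralGroup.r i := by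
    let K : Subgroup (DihedralGroup 0) :=
      { carrier := {g | ∃ i : ZMod 0, g = DihedralGroup.r i}
        mul_mem' := by
          rintro _ _ ⟨i, rfl⟩ ⟨j, rfl⟩
          exact ⟨i + j, DihedralGroup.r_mul_r i j⟩
        one_mem' := ⟨0, rfl⟩
        inv_mem' := by
          rintro _ ⟨i, rfl⟩
          exact ⟨-i, DihedralGroup.inv_r i⟩ }
    have h2 : derivedSeries (DihedralGroup 0) 1 ≤ K := by
      rw [derivedSeries_succ, Subgroup.commutator_le]
      rintro g - h -
      rcases g with i | i <;> rcases h with j | j <;>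
        simp only [commutatorElement_def, DihedralGroup.inv_r, DihedralGroup.inv_sr,
          DihedralGroup.r_mul_r, DihedralGroup.r_mul_sr, DihedralGroup.sr_mul_r,
          DihedralGroup.sr_mul_sr] <;> exact ⟨_, rfl⟩
    exact fun g hg => h2 hg
  rw [derivedSeries_succ, Subgroup.commutator_eq_bot_iff_le_centralizer]
  intro g hg h hh
  obtain ⟨i, rfl⟩ := h1 g hg
  obtain ⟨j, rfl⟩ := h1 h hh
  simp [add_comm]

end Pool.Agent.TH60.TB
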